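import Pool.Agent.Helper43.AC7.Rows
import Pool.Agent.Helper43.AC.CurveFree

/-! Project AC (MP_e93a6a_ag): the list, with the criterion over a general surface. -/

set_option autoImplicit false

namespace Pool.Agent.Helper43.AC7

open IntermediateField Pool.Agent.Helper75.QC Pool.Agent.Helper35.WC Pool.Agent.Helper75.WC
open Pool.Agent.Helper35.V7

variable {Ω : Type} [Field Ω] [IsAlgClosed Ω] {P : (K : Type) → [Field K] → [Algebra Ω K] → Prop}

/-- **The whole list.** -/
theorem listed3 (hP : IsMotivic Ω P) {R M : Type} [Field R] [Field M] [Algebra Ω R]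
    [Algebra Ω M] [Algebra R M] [IsScalarTower Ω R M] [FiniteDimensional R M] [IsGalois R M]
    (h : LstN Ω R M) : P M ∨ Row3 Ω R M := by
  rcases h with h | h
  · rcases Pool.Agent.Helper43.AC.listedM hP.toAC h with h | h
    · exact Or.inl h
    · exact Or.inr (Row3.of_rowDataM h)
  · exact Or.inr h

end Pool.Agent.Helper43.AC7
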