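import Pool.Agent.Helper43.AC7.Defs
import Pool.Agent.Helper43.AC.RowsM
import Pool.Agent.Helper35.V7.Row3

/-! Project AC (MP_e93a6a_ag): finite abelian extensions `K / R`, where for the cyclic subextensions
`M / R` there is a field `Ω(x, y, z)` of transcendence degree two between `R` and `M`; the proof
follows `Pool.Agent.Helper35.V7.noTate_rows3`. -/

set_option autoImplicit false

namespace Pool.Agent.Helper43.AC7

open IntermediateField Pool.Agent.Helper75.QC Pool.Agent.Helper35.WC Pool.Agent.Helper75.WC
open Pool.Agent.Helper35.V7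

variable {Ω : Type} [Field Ω] {P : (K : Type) → [Field K] → [Algebra Ω K] → Prop}

/-- the case `z = x` -/
theorem IsMotivic.toAC (hP : IsMotivic Ω P) : Pool.Agent.Helper43.AC.IsMotivic Ω P where
  sub := hP.sub
  product := hP.product
  abelian := hP.abelian
  twist := by
    intro K _ _ x y w n α β h hαβ hexc htw
    obtain ⟨h1, h2, h3, h4, h5⟩ := h
    have e1 : (({x, y, x} : Set K)) = {x, y} := by
      ext a
      simp only [Set.mem_insert_iff, Set.mem_singleton_iff]
      tauto
    have e2 : ∀ u : K, (({x, y, x, u} : Set K)) = {x, y, u} := by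
      intro u
      ext a
      simp only [Set.mem_insert_iff, Set.mem_singleton_iff]
      tauto
    refine hP.twist K x y x w n α β ⟨h1, h2, ?_, ?_, ?_, ?_⟩ hαβ (fun m hm hm' => ?_)
      (fun N _ _ g v s hv hs => ?_)
    · exact (coe_AF (Ω := Ω) ({x, y} : Set K)) ▸ subset_AF _ (by simp)
    · rw [e1]
      exact h3
    · rw [e2]
      exact h4
    · rw [e1]
      exact h5
    · rw [e2]
      exact hexc m hm hm'
    · have e3 : (({g x, g y, g x, v, s} : Set N)) = {g x, g y, v, s} := by
        ext a
        simp only [Set.mem_insert_iff, Set.mem_singleton_iff]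
        tauto
      rw [e3]
      exact htw N g v s hv hs

/-- Finite abelian extensions: the cyclic quotients by induction on the degree. -/
theorem mem_rows3 (hP : IsMotivic Ω P) {K : Type} [Field K] [Algebra Ω K]
    (R : IntermediateField Ω K) [FiniteDimensional R K] [IsGalois R K]
    (hab : ∀ g h : K ≃ₐ[R] K, g * h = h * g)
    (H : ∀ M : IntermediateField R K, IsCyclic (M ≃ₐ[R] M) → P M ∨ Row3 Ω R M) : P K := by
  classical
  refine hP.abelian K R ⟨inferInstance, inferInstance, hab⟩ fun M hc => ?_
  change IsCyclic (M ≃ₐ[R] M) at hc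
  obtain ⟨k, hk⟩ : ∃ k, k = Module.finrank R M := ⟨_, rfl⟩
  induction k using Nat.strong_induction_on generalizing M with
  | _ k IH =>
  rcases H M hc with h | ⟨n, α, β, x, y, z, w, hn0, hnΩ, hαβ, hα, hβ, hαβ', hz, hRle, hK, hdeg,
    hw0, hwn, huni⟩
  · exact h
  have hGM : IsGalois R M := isGalois_of_comm hab M
  refine hP.twist M x y z w n α β ⟨hnΩ, hw0, hz, hwn, hK, hdeg⟩ hαβ (fun d hdn hd => ?_) huni
  obtain ⟨m, hm⟩ := hdn
  have hne : d ≠ n := by
    rintro rfl
    rcases hd with h | h | h
    · exact hα h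
    · exact hβ h
    · exact hαβ' h
  have hd0 : 0 < d := Nat.pos_of_ne_zero (by
    rintro rfl
    rw [zero_mul] at hm
    omega)
  have hm0 : 0 < m := Nat.pos_of_ne_zero (by
    rintro rfl
    rw [mul_zero] at hm
    omega)
  have hdlt : d < n := lt_of_le_of_ne (by
    rw [hm]
    exact Nat.le_mul_of_pos_right _ hm0) hne
  have hdiv : n / d = m := by
    rw [hm, Nat.mul_div_cancel_left _ hd0]
  rw [hdiv]
  obtain ⟨F, hF⟩ : ∃ F : IntermediateField Ω M, F = adjoin Ω {x, y, z} := ⟨_, rfl⟩
  obtain ⟨N, hN⟩ : ∃ N : IntermediateField Ω M, N = adjoin Ω {x, y, z, w ^ m} := ⟨_, rfl⟩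
  have hFN : F ≤ N := by
    rw [hF, hN]
    exact adjoin.mono Ω _ _ (by
      rintro a (rfl | rfl | rfl)
      · simp
      · simp
      · simp)
  -- the field `N` as an extension of `R`
  let M' : IntermediateField R M :=
    { N.toSubfield with
      algebraMap_mem' := fun r => hFN (hF ▸ hRle r) }
  have hcM' : IsCyclic (M' ≃ₐ[R] M') := cyclic_sub hc M'
  let e : M' ≃ₐ[R] lift M' := liftAlgEquiv M'
  have hcL : IsCyclic (lift M' ≃ₐ[R] lift M') :=
    (MulEquiv.isCyclic (AlgEquiv.autCongr e)).1 hcM'
  -- `M'` is a proper subfield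
  have hlt : M' ≠ ⊤ := by
    intro htop
    have hNtop : N = ⊤ := by
      rw [eq_top_iff]
      intro a _
      have h1 : a ∈ M' := by
        rw [htop]
        exact mem_top
      exact h1
    -- the degree of `N` over `F` is at most `d`
    have hfinF : FiniteDimensional F M := Module.finite_of_finrank_pos (by
      rw [hF, hdeg]
      exact hn0)
    obtain ⟨Q, hQ⟩ : ∃ Q : IntermediateField F M, Q = adjoin F {w ^ m} := ⟨_, rfl⟩
    have hQtop : Q = ⊤ := by
      rw [eq_top_iff]
      intro a _
      have h1 : N ≤ Q.restrictScalars Ω := by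
        rw [hN, adjoin_le_iff]
        have hx : x ∈ F := by
          rw [hF]
          exact subset_adjoin _ _ (by simp)
        have hy : y ∈ F := by
          rw [hF]
          exact subset_adjoin _ _ (by simp)
        have hz' : z ∈ F := by
          rw [hF]
          exact subset_adjoin _ _ (by simp)
        rintro b (rfl | rfl | rfl | rfl)
        · exact Q.algebraMap_mem (⟨_, hx⟩ : F)
        · exact Q.algebraMap_mem (⟨_, hy⟩ : F)
        · exact Q.algebraMap_mem (⟨_, hz'⟩ : F)
        · show w ^ m ∈ Q
          rw [hQ]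
          exact subset_adjoin _ _ rfl
      exact h1 (by
        rw [hNtop]
        exact mem_top)
    have h2 : Module.finrank F Q ≤ d := by
      rw [hQ, adjoin.finrank (Algebra.IsIntegral.isIntegral _)]
      have hwF : w ^ n ∈ F := by
        rw [hF]
        exact hwn
      have h3 : minpoly F (w ^ m) ∣ Polynomial.X ^ d - Polynomial.C (⟨w ^ n, hwF⟩ : F) := by
        refine minpoly.dvd F _ ?_
        rw [map_sub, map_pow, Polynomial.aeval_X, Polynomial.aeval_C]
        show (w ^ m) ^ d - w ^ n = 0
        rw [← pow_mul, mul_comm m, ← hm, sub_self]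
      have h4 := Polynomial.natDegree_le_of_dvd h3 (Polynomial.X_pow_sub_C_ne_zero hd0 _)
      rwa [Polynomial.natDegree_X_pow_sub_C] at h4
    have h5 : Module.finrank F Q = n := by
      rw [hQtop, finrank_top', ← hdeg, hF]
    omega
  have hfin : Module.finrank R (lift M') < k := by
    rw [← e.toLinearEquiv.finrank_eq, hk]
    have h1 : M' < ⊤ := lt_top_iff_ne_top.2 hlt
    have h2 : Module.finrank R M' < Module.finrank R (⊤ : IntermediateField R M) := by
      by_contra h3
      rw [not_lt] at h3
      exact h1.ne (IntermediateField.eq_of_le_of_finrank_le h1.le h3)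
    rwa [finrank_top'] at h2
  have h1 := IH _ hfin (lift M') hcL rfl
  have hmem1 : ∀ a ∈ (adjoin Ω {x, y, z, w ^ m} : IntermediateField Ω M), a ∈ M' := by
    intro a ha
    show a ∈ N
    rw [hN]
    exact ha
  let ι : (adjoin Ω {x, y, z, w ^ m} : IntermediateField Ω M) →ₐ[Ω] lift M' :=
    { toFun := fun a => e ⟨a.1, hmem1 a.1 a.2⟩
      map_one' := rfl
      map_mul' := fun _ _ => rfl
      map_zero' := rfl
      map_add' := fun _ _ => rfl
      commutes' := fun _ => rfl }
  exact hP.sub (lift M') _ ι h1

end Pool.Agent.Helper43.AC7
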